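import Pool.Agent.H743.X17.IsoStm
import Pool.Graph.R_seed8.Y809.BSD14.Tam3
import Pool.Agent.H743.X17.TAM2

/-!
# I17-ITD1: Tamagawa number 4 at 2 for `I¹_m : y² = x (x² + 9 m x + 16 m²)`, `m ≡ 2, 3 mod 4`
-/

set_option autoImplicit false

open scoped Classical

namespace Pool.Agent.H658.I17.ITD1

open Pool.Agent.H743.X17
open Pool.Agent.H743.X17.QTAM2 (n2 n4 n16 disc0 disc nadd nsub nle nle' unit_sub_one sq_unit
  index_four nm_le cases5 odd_val)
open Pool.Agent.TH841.SH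
open Pool.Agent.Y700 (PtP SingRed E0 tam)
open WeierstrassCurve

/-- the equation `y² = x³ + 9 m x² + 16 m² x` -/
def W9 (m : ℤ) : WeierstrassCurve ℤ := ⟨0, 9 * m, 0, 16 * m ^ 2, 0⟩

theorem WJ_eq {m : ℤ} (h : m % 4 ≠ 1) : WJ 1 m = W9 m := by
  unfold WJ W9
  rw [if_neg h]
  show (⟨0, 9 * m, 0, 16 * 1 * m ^ 2, 64 * 0 * m ^ 3⟩ : WeierstrassCurve ℤ) = _
  congr 1; ring

/-- the roots of `x² + 9 m x + 16 m²` -/
structure RT (m : ℤ) (a b : ℚ_[2]) : Prop where
  hs : a + b = -9 * m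
  hp : a * b = 16 * m ^ 2
  na : ‖a‖ = ‖(m : ℚ_[2])‖
  nb : ‖b‖ = ‖(m : ℚ_[2])‖ / 16

theorem exists_s : ∃ s : ℚ_[2], s * s = 17 ∧ ‖9 + s‖ = 1 / 2 ∧ ‖9 - s‖ = 1 / 32 := by
  obtain ⟨s, hs⟩ := Pool.Agent.H468.X15.sq_of_mod8 (u := 17) (by norm_num)
  push_cast at hs
  have key : ∀ s : ℚ_[2], s * s = 17 → ‖9 - s‖ ≤ 1 / 4 → ‖9 + s‖ = 1 / 2 ∧ ‖9 - s‖ = 1 / 32 := by
    intro s hs h
    have n9 : ‖(9 : ℚ_[2])‖ = 1 := by
      have e : (9 : ℚ_[2]) = 1 + 2 * ((4 : ℤ) : ℚ_[2]) := by push_cast; norm_num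
      rw [e, nadd, norm_one]
      rw [norm_one, norm_mul, n2]
      exact (mul_le_mul_of_nonneg_left (nm_le 4) (by norm_num)).trans_lt (by norm_num)
    have n18 : ‖(18 : ℚ_[2])‖ = 1 / 2 := by
      have e : (18 : ℚ_[2]) = 2 * 9 := by norm_num
      rw [e, norm_mul, n2, n9]; norm_num
    have n64 : ‖(64 : ℚ_[2])‖ = 1 / 64 := by
      have e : (64 : ℚ_[2]) = 4 * 16 := by norm_num
      rw [e, norm_mul, n4, n16]; norm_num
    have h1 : ‖9 + s‖ = 1 / 2 := by
      have e : 9 + s = 18 - (9 - s) := by ring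
      rw [e, nsub, n18]
      rw [n18]; linarith
    refine ⟨h1, ?_⟩
    have h2 : ‖9 + s‖ * ‖9 - s‖ = 1 / 64 := by
      rw [← norm_mul, ← n64]
      congr 1
      linear_combination -hs
    rw [h1] at h2
    linarith
  have hun : ‖s‖ = 1 := by
    have h1 : ‖s‖ * ‖s‖ = 1 := by
      rw [← norm_mul, ← hs]
      have e : (17 : ℚ_[2]) = 1 + 16 := by norm_num
      rw [e, nadd, norm_one]
      rw [norm_one, n16]; norm_num
    nlinarith [norm_nonneg s]
  have h3 := unit_sub_one hun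
  have n10 : ‖(10 : ℚ_[2])‖ ≤ 1 / 2 := by
    have e : (10 : ℚ_[2]) = 2 * ((5 : ℤ) : ℚ_[2]) := by push_cast; norm_num
    rw [e, norm_mul, n2]
    exact (mul_le_mul_of_nonneg_left (nm_le 5) (by norm_num)).trans (by norm_num)
  have n8 : ‖(8 : ℚ_[2])‖ ≤ 1 / 8 := by
    have e : (8 : ℚ_[2]) = 2 ^ 3 := by norm_num
    rw [e, norm_pow, n2]; norm_num
  by_cases h : ‖9 - s‖ ≤ 1 / 4
  · exact ⟨s, hs.symm, key s hs.symm h⟩
  · refine ⟨-s, by linear_combination -hs, ?_⟩
    apply key (-s) (by linear_combination -hs)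
    rw [sub_neg_eq_add]
    have h4 : ‖9 - s‖ ≤ 1 / 2 := by
      have e : 9 - s = 8 - (s - 1) := by ring
      rw [e]
      exact nle' (by linarith) h3
    have h5 : ‖9 - s‖ = 1 / 2 := by
      rcases h4.lt_or_eq with h6 | h6
      · exfalso
        apply h
        have := disc 1 (x := 9 - s) (by norm_num; exact h6)
        norm_num at this
        exact this
      · exact h6
    have n64 : ‖(64 : ℚ_[2])‖ = 1 / 64 := by
      have e : (64 : ℚ_[2]) = 4 * 16 := by norm_num
      rw [e, norm_mul, n4, n16]; norm_num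
    have h2 : ‖9 + s‖ * ‖9 - s‖ = 1 / 64 := by
      rw [← norm_mul, ← n64]
      congr 1
      linear_combination hs
    rw [h5] at h2
    linarith

theorem exists_RT (m : ℤ) : ∃ a b : ℚ_[2], RT m a b := by
  obtain ⟨s, hs, h1, h2⟩ := exists_s
  refine ⟨-(m * (9 + s) / 2), -(m * (9 - s) / 2), ⟨?_, ?_, ?_, ?_⟩⟩
  · ring
  · linear_combination -(m : ℚ_[2]) ^ 2 / 4 * hs
  · rw [norm_neg, norm_div, norm_mul, h1, n2]; ring
  · rw [norm_neg, norm_div, norm_mul, h2, n2]; ring

/-! ### the curve -/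

/-- the curve over `ℚ₂` -/
noncomputable abbrev E (m : ℤ) : WeierstrassCurve ℚ_[2] := (W9 m).map (Int.castRingHom ℚ_[2])

section

variable {m : ℤ} {a b : ℚ_[2]}

theorem isR (r : RT m a b) : IsR (E m) 0 a b := by
  constructor
  · show ((0 : ℤ) : ℚ_[2]) = 0
    simp
  · show ((9 * m : ℤ) : ℚ_[2]) = _
    push_cast
    linear_combination r.hs
  · show ((0 : ℤ) : ℚ_[2]) = 0
    simp
  · show ((16 * m ^ 2 : ℤ) : ℚ_[2]) = _
    push_cast
    linear_combination -r.hp
  · show ((0 : ℤ) : ℚ_[2]) = _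
    simp

theorem RT.nb_le (r : RT m a b) : ‖b‖ ≤ 1 / 16 := by
  rw [r.nb]
  have := nm_le m
  linarith

theorem RT.na_le (r : RT m a b) : ‖a‖ ≤ 1 := by
  rw [r.na]
  exact nm_le m

theorem eqn (r : RT m a b) {x y : ℚ_[2]} (hn : (E m).toAffine.Nonsingular x y) :
    y ^ 2 = x * (x - a) * (x - b) := by
  have h := ((isR r).eqn x y).1 hn.1
  rw [h]; ring

/-- `P ∈ E⁰` if and only if `|x| ≥ 1` -/
theorem mem_iff {x y : ℚ_[2]} (hn : (E m).toAffine.Nonsingular x y) :
    (Affine.Point.some x y hn : PtP (W9 m) 2) ∈ E0 (W9 m) 2 ↔ 1 ≤ ‖x‖ := by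
  obtain ⟨a, b, r⟩ := exists_RT m
  rw [Pool.Agent.Y809.BSD14.t_E0]
  have e1 : ∀ x y : ℚ_[2], SingRed (W9 m) 2 x y ↔ (‖x‖ ≤ 1 ∧ ‖y‖ ≤ 1 ∧
      ‖3 * x ^ 2 + 18 * m * x + 16 * m ^ 2‖ < 1 ∧ ‖2 * y‖ < 1) := by
    intro x y
    unfold SingRed W9
    simp only
    push_cast
    have e2 : (0 : ℚ_[2]) * y - (3 * x ^ 2 + 2 * (9 * m) * x + 16 * m ^ 2) =
        -(3 * x ^ 2 + 18 * m * x + 16 * m ^ 2) := by ring
    have e3 : (2 : ℚ_[2]) * y + 0 * x + 0 = 2 * y := by ring
    rw [e2, e3, norm_neg]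
  have h18 : ‖(18 : ℚ_[2])‖ ≤ 1 / 2 := by
    have : (18 : ℚ_[2]) = 2 * ((9 : ℤ) : ℚ_[2]) := by push_cast; norm_num
    rw [this, norm_mul, n2]
    exact (mul_le_mul_of_nonneg_left (nm_le 9) (by norm_num)).trans (by norm_num)
  have h3 : ‖(3 : ℚ_[2])‖ = 1 := by
    have e : (3 : ℚ_[2]) = 1 + 2 := by norm_num
    rw [e, nadd, norm_one]
    rw [n2, norm_one]
    norm_num
  have hm1 := nm_le m
  have hm0 := norm_nonneg (m : ℚ_[2])
  have h16 : ‖(16 : ℚ_[2]) * m ^ 2‖ ≤ 1 / 16 := by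
    rw [norm_mul, norm_pow, n16]
    nlinarith
  constructor
  · intro h
    by_contra hc
    have hx := not_le.1 hc
    have hx0 := norm_nonneg x
    apply h x y hn rfl
    rw [e1]
    have he := eqn r hn
    have hy : ‖y‖ ≤ 1 := by
      have h5 : ‖y‖ ^ 2 ≤ 1 := by
        rw [← norm_pow, he, norm_mul, norm_mul]
        have h6 : ‖x - a‖ ≤ 1 := nle' hx.le r.na_le
        have h7 : ‖x - b‖ ≤ 1 := nle' hx.le (by have := r.nb_le; linarith)
        calc ‖x‖ * ‖x - a‖ * ‖x - b‖ ≤ 1 * 1 * 1 := by gcongr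
          _ = 1 := by norm_num
      nlinarith [norm_nonneg y]
    refine ⟨hx.le, hy, ?_, ?_⟩
    · have g1 : ‖3 * x ^ 2‖ < 1 := by
        rw [norm_mul, norm_pow, h3]
        nlinarith
      have g2 : ‖18 * m * x‖ < 1 := by
        rw [norm_mul, norm_mul]
        calc ‖(18 : ℚ_[2])‖ * ‖(m : ℚ_[2])‖ * ‖x‖ ≤ 1 / 2 * 1 * 1 := by gcongr
          _ < 1 := by norm_num
      have g3 : ‖(16 : ℚ_[2]) * m ^ 2‖ < 1 := by linarith
      refine (IsUltrametricDist.norm_add_le_max _ _).trans_lt (max_lt ?_ g3)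
      exact (IsUltrametricDist.norm_add_le_max _ _).trans_lt (max_lt g1 g2)
    · rw [norm_mul, n2]
      linarith
  · intro h x' y' hn' he
    obtain ⟨rfl, rfl⟩ : x = x' ∧ y = y' := by simpa using he
    rw [e1]
    rintro ⟨h1, h2, h4, h5⟩
    have hx : ‖x‖ = 1 := le_antisymm h1 h
    have h6 : ‖3 * x ^ 2 + 18 * m * x + 16 * m ^ 2‖ = 1 := by
      have g1 : ‖3 * x ^ 2‖ = 1 := by
        rw [norm_mul, norm_pow, h3, hx]
        norm_num
      have g2 : ‖18 * m * x‖ < 1 := by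
        rw [norm_mul, norm_mul, hx]
        calc ‖(18 : ℚ_[2])‖ * ‖(m : ℚ_[2])‖ * 1 ≤ 1 / 2 * 1 * 1 := by gcongr
          _ < 1 := by norm_num
      have g3 : ‖(16 : ℚ_[2]) * m ^ 2‖ < 1 := by linarith
      have g4 : ‖3 * x ^ 2 + 18 * m * x‖ = 1 := by rw [nadd, g1]; rwa [g1]
      rw [nadd, g4]
      rwa [g4]
    rw [h6] at h4
    exact lt_irrefl _ h4

theorem RT.mQ (_ : RT m a b) (hm : m ≠ 0) : 0 < ‖(m : ℚ_[2])‖ := by
  rw [norm_pos_iff]
  exact_mod_cast hm

theorem RT.ne (r : RT m a b) (hm : m ≠ 0) : a ≠ 0 ∧ b ≠ 0 ∧ a ≠ b := by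
  have h := r.mQ hm
  refine ⟨?_, ?_, ?_⟩
  · rw [← norm_pos_iff, r.na]; exact h
  · rw [← norm_pos_iff, r.nb]; linarith
  · intro h1
    have h2 := r.na
    rw [h1, r.nb] at h2
    linarith

theorem hns (r : RT m a b) (hm : m ≠ 0) {x y : ℚ_[2]} (hx : y ^ 2 = x * (x - a) * (x - b)) :
    (E m).toAffine.Nonsingular x y := by
  obtain ⟨h1, h2, h3⟩ := r.ne hm
  refine (isR r).nons two_ne_zero h1.symm h2.symm h3 ?_
  rw [hx]; ring

/-- translation by the points of order two -/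
theorem tr1 (r : RT m a b) {x y : ℚ_[2]} (hn : (E m).toAffine.Nonsingular x y) (hy : y ≠ 0)
    (h0 : (E m).toAffine.Nonsingular 0 0) :
    ∃ (X Y : ℚ_[2]) (hn' : (E m).toAffine.Nonsingular X Y),
      (Affine.Point.some x y hn : (E m).toAffine.Point) + .some 0 0 h0 = .some X Y hn' ∧
      x ≠ 0 ∧ X * x = a * b := by
  obtain ⟨X, Y, hn', h1, h2, -, -, h3, -⟩ := (isR r).trans hn hy h0
  rw [sub_zero] at h2 h3
  refine ⟨X, Y, hn', h1, h2, ?_⟩
  rw [h3]
  field_simp
  ring

theorem tr2 (r : RT m a b) {x y : ℚ_[2]} (hn : (E m).toAffine.Nonsingular x y) (hy : y ≠ 0)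
    (h0 : (E m).toAffine.Nonsingular a 0) :
    ∃ (X Y : ℚ_[2]) (hn' : (E m).toAffine.Nonsingular X Y),
      (Affine.Point.some x y hn : (E m).toAffine.Point) + .some a 0 h0 = .some X Y hn' ∧
      x - a ≠ 0 ∧ X * (x - a) = a * (x - b) := by
  obtain ⟨X, Y, hn', h1, h2, -, -, h3, -⟩ := (isR r).rot.trans hn hy h0
  refine ⟨X, Y, hn', h1, h2, ?_⟩
  rw [h3]
  field_simp
  ring

theorem tr3 (r : RT m a b) {x y : ℚ_[2]} (hn : (E m).toAffine.Nonsingular x y) (hy : y ≠ 0)
    (h0 : (E m).toAffine.Nonsingular b 0) :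
    ∃ (X Y : ℚ_[2]) (hn' : (E m).toAffine.Nonsingular X Y),
      (Affine.Point.some x y hn : (E m).toAffine.Point) + .some b 0 h0 = .some X Y hn' ∧
      x - b ≠ 0 ∧ X * (x - b) = b * (x - a) := by
  obtain ⟨X, Y, hn', h1, h2, -, -, h3, -⟩ := (isR r).rot.rot.trans hn hy h0
  refine ⟨X, Y, hn', h1, h2, ?_⟩
  rw [h3]
  field_simp
  ring

/-! ### `m` even -/

theorem tam_even (hm : m % 4 = 2) : (E0 (W9 m) 2).index = 4 := by
  obtain ⟨a, b, r⟩ := exists_RT m
  have hm0 : m ≠ 0 := by rintro rfl; norm_num at hm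
  have hmn : ‖(m : ℚ_[2])‖ = 1 / 2 := by
    obtain ⟨k, rfl⟩ : ∃ k : ℤ, m = 2 * k := ⟨m / 2, by omega⟩
    have hk : ‖(k : ℚ_[2])‖ = 1 := by
      by_contra h5
      have h6 : ‖(k : ℚ_[2])‖ < 1 := lt_of_le_of_ne (nm_le k) h5
      have h7 := (Padic.norm_intCast_lt_one_iff (p := 2) (k := k)).1 h6
      push_cast at h7
      omega
    push_cast
    rw [norm_mul, hk, n2, mul_one]
  obtain ⟨a0, b0, ab⟩ := r.ne hm0
  have hna : ‖a‖ = 1 / 2 := by rw [r.na, hmn]
  have hnb : ‖b‖ = 1 / 32 := by rw [r.nb, hmn]; norm_num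
  have g1 := hns r (x := 0) (y := 0) hm0 (by ring)
  have g2 := hns r (x := a) (y := 0) hm0 (by ring)
  have g3 := hns r (x := b) (y := 0) hm0 (by ring)
  have s1 : (Affine.Point.some 0 0 g1 : (E m).toAffine.Point) + .some 0 0 g1 = 0 :=
    ((isR r).add_self two_ne_zero g1).2 rfl
  have s2 : (Affine.Point.some a 0 g2 : (E m).toAffine.Point) + .some a 0 g2 = 0 :=
    ((isR r).add_self two_ne_zero g2).2 rfl
  -- the sum of the two points is the third one
  have s3 : (Affine.Point.some 0 0 g1 : (E m).toAffine.Point) + .some a 0 g2 =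
      .some b 0 g3 := by
    have h5 : ((Affine.Point.some 0 0 g1 : (E m).toAffine.Point) + .some a 0 g2) +
        (.some 0 0 g1 + .some a 0 g2) = 0 := by
      have e : ∀ a b : (E m).toAffine.Point, (a + b) + (a + b) = (a + a) + (b + b) := by
        intro a b; abel
      rw [e, s1, s2, add_zero]
    rcases (isR r).tors two_ne_zero h5 with h | ⟨h6, h⟩ | ⟨h6, h⟩ | ⟨h6, h⟩
    · exfalso
      have h7 : (Affine.Point.some 0 0 g1 : (E m).toAffine.Point) = .some a 0 g2 := by
        have h8 := eq_neg_of_add_eq_zero_left h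
        rw [h8]
        exact neg_eq_of_add_eq_zero_left s2
      have h9 : (0 : ℚ_[2]) = a := by simpa using h7
      exact a0 h9.symm
    · exfalso
      have h7 : (Affine.Point.some a 0 g2 : (E m).toAffine.Point) = 0 := by
        have : (Affine.Point.some 0 0 g1 : (E m).toAffine.Point) + .some a 0 g2 =
            .some 0 0 g1 + 0 := by rw [h, add_zero]
        exact add_left_cancel this
      exact Affine.Point.some_ne_zero _ h7
    · exfalso
      have h7 : (Affine.Point.some 0 0 g1 : (E m).toAffine.Point) = 0 := by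
        have : (Affine.Point.some 0 0 g1 : (E m).toAffine.Point) + .some a 0 g2 =
            0 + .some a 0 g2 := by rw [h, zero_add]
        exact add_right_cancel this
      exact Affine.Point.some_ne_zero _ h7
    · exact h
  refine index_four (E0 (W9 m) 2) (.some 0 0 g1 : (E m).toAffine.Point)
    (.some a 0 g2 : (E m).toAffine.Point) ?_ ?_ ?_ ?_ ?_ ?_
  · rw [s1]; exact AddSubgroup.zero_mem _
  · rw [s2]; exact AddSubgroup.zero_mem _
  · rw [mem_iff, norm_zero]; norm_num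
  · rw [mem_iff, hna]; norm_num
  · rw [s3, mem_iff, hnb]; norm_num
  · intro P
    rw [s3]
    rcases P with _ | ⟨x, y, hn⟩
    · left
      exact AddSubgroup.zero_mem _
    rcases le_or_gt 1 ‖x‖ with hx | hx
    · left
      exact (mem_iff hn).2 hx
    right
    by_cases hy : y = 0
    · have he := eqn r hn
      rw [hy] at he
      have h0 : x * (x - a) * (x - b) = 0 := by rw [← he]; ring
      subst hy
      rcases mul_eq_zero.1 h0 with h1 | h1
      · rcases mul_eq_zero.1 h1 with h2 | h2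
        · subst h2
          left
          rw [s1]; exact AddSubgroup.zero_mem _
        · have h3 : x = a := by linear_combination h2
          subst h3
          right; left
          rw [s2]; exact AddSubgroup.zero_mem _
      · have h3 : x = b := by linear_combination h1
        subst h3
        right; right
        rw [((isR r).add_self two_ne_zero hn).2 rfl]
        exact AddSubgroup.zero_mem _
    · obtain ⟨X1, Y1, k1, p1, q1, r1⟩ := tr1 r hn hy g1
      obtain ⟨X2, Y2, k2, p2, q2, r2⟩ := tr2 r hn hy g2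
      obtain ⟨X3, Y3, k3, p3, q3, r3⟩ := tr3 r hn hy g3
      rw [p1, p2, p3, mem_iff, mem_iff, mem_iff]
      have r1' : ‖X1‖ * ‖x‖ = 1 / 64 := by
        rw [← norm_mul, r1, norm_mul, hna, hnb]
        norm_num
      have r2' : ‖X2‖ * ‖x - a‖ = 1 / 2 * ‖x - b‖ := by
        rw [← norm_mul, r2, norm_mul, hna]
      have r3' : ‖X3‖ * ‖x - b‖ = 1 / 32 * ‖x - a‖ := by
        rw [← norm_mul, r3, norm_mul, hnb]
      have hy2 : ‖y‖ ^ 2 = ‖x‖ * ‖x - a‖ * ‖x - b‖ := by
        rw [← norm_pow, eqn r hn, norm_mul, norm_mul]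
      have x1 : 0 < ‖x‖ := norm_pos_iff.2 q1
      have x2 : 0 < ‖x - a‖ := norm_pos_iff.2 q2
      have x3 : 0 < ‖x - b‖ := norm_pos_iff.2 q3
      have small : ‖x‖ < 1 / 2 → ‖x - a‖ = 1 / 2 := by
        intro h
        have e : x - a = -(a - x) := by ring
        rw [e, norm_neg, nsub, hna]
        rw [hna]; exact h
      rcases cases5 hx with h | h | h | h | h | h
      · -- `v(x) = 1`
        right; left
        have h1 : ‖x - a‖ ≤ 1 / 4 := by
          have e : ‖(x - a) / 2‖ ≤ 1 / 2 := by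
            have h3 : ‖x / 2‖ = 1 := by rw [norm_div, h, n2]; norm_num
            have h4 : ‖a / 2‖ = 1 := by rw [norm_div, hna, n2]; norm_num
            have e2 : (x - a) / 2 = (x / 2 - 1) - (a / 2 - 1) := by ring
            rw [e2]
            exact nle' (unit_sub_one h3) (unit_sub_one h4)
          rw [norm_div, n2] at e
          linarith
        have h2 : ‖x - b‖ = 1 / 2 := by
          rw [nsub, h]
          rw [h, hnb]
          norm_num
        rw [h2] at r2'
        by_contra hc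
        have hc' := not_le.1 hc
        nlinarith
      · exfalso
        have h1 : ‖x - a‖ = 1 / 2 := small (by rw [h]; norm_num)
        have h2 : ‖x - b‖ = 1 / 4 := by rw [nsub, h]; rw [h, hnb]; norm_num
        rw [h, h1, h2] at hy2
        apply odd_val (y := y) 2
        rw [hy2]; norm_num
      · exfalso
        have h1 : ‖x - a‖ = 1 / 2 := small (by rw [h]; norm_num)
        have h2 : ‖x - b‖ = 1 / 8 := by rw [nsub, h]; rw [h, hnb]; norm_num
        rw [h, h1, h2] at hy2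
        apply odd_val (y := y) 3
        rw [hy2]; norm_num
      · exfalso
        have h1 : ‖x - a‖ = 1 / 2 := small (by rw [h]; norm_num)
        have h2 : ‖x - b‖ = 1 / 16 := by rw [nsub, h]; rw [h, hnb]; norm_num
        rw [h, h1, h2] at hy2
        apply odd_val (y := y) 4
        rw [hy2]; norm_num
      · right; right
        have h1 : ‖x - a‖ = 1 / 2 := small (by rw [h]; norm_num)
        have h2 : ‖x - b‖ ≤ 1 / 64 := by
          have e : ‖(x - b) / 2 ^ 5‖ ≤ 1 / 2 := by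
            have h3 : ‖x / 2 ^ 5‖ = 1 := by rw [norm_div, h, norm_pow, n2]; norm_num
            have h4 : ‖b / 2 ^ 5‖ = 1 := by
              rw [norm_div, hnb, norm_pow, n2]; norm_num
            have e2 : (x - b) / 2 ^ 5 = (x / 2 ^ 5 - 1) - (b / 2 ^ 5 - 1) := by ring
            rw [e2]
            exact nle' (unit_sub_one h3) (unit_sub_one h4)
          rw [norm_div, norm_pow, n2] at e
          rw [div_le_iff₀ (by positivity)] at e
          norm_num at e ⊢
          exact e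
        rw [h1] at r3'
        by_contra hc
        have hc' := not_le.1 hc
        nlinarith
      · left
        by_contra hc
        have hc' := not_le.1 hc
        nlinarith

/-! ### `m = 3 mod 4` -/

/-- a point with `v(x) = 1` -/
structure K1 (a b x y : ℚ_[2]) : Prop where
  hx : ‖x‖ = 1 / 2
  he : y ^ 2 = x * (x - a) * (x - b)

theorem nxa (hm : ‖a‖ = 1) {x : ℚ_[2]} (h : ‖x‖ < 1) : ‖x - a‖ = 1 := by
  have e : x - a = -(a - x) := by ring
  rw [e, norm_neg, nsub, hm]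
  rw [hm]; exact h

theorem K1.y_norm (r : RT m a b) (hm : ‖a‖ = 1) {x y : ℚ_[2]} (h : K1 a b x y) : ‖y‖ = 1 / 2 := by
  have h1 : ‖x - a‖ = 1 := nxa hm (by rw [h.hx]; norm_num)
  have h2 : ‖x - b‖ = 1 / 2 := by
    rw [nsub, h.hx]
    rw [h.hx]
    have := r.nb_le
    linarith
  have h3 : ‖y‖ ^ 2 = (1 / 2) ^ 2 := by
    rw [← norm_pow, h.he, norm_mul, norm_mul, h1, h2, h.hx]
    norm_num
  exact (pow_left_inj₀ (norm_nonneg _) (by norm_num) two_ne_zero).1 h3

/-- `x - a = 1` modulo `8` -/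
theorem K1.cong (r : RT m a b) (hm : ‖a‖ = 1) {x y : ℚ_[2]} (h : K1 a b x y) :
    ‖x - a - 1‖ ≤ 1 / 8 := by
  have hy := h.y_norm r hm
  have h1 : ‖y / 2‖ = 1 := by rw [norm_div, hy, n2]; norm_num
  have h2 : ‖x / 2‖ = 1 := by rw [norm_div, h.hx, n2]; norm_num
  have h3 : ‖x - a‖ = 1 := nxa hm (by rw [h.hx]; norm_num)
  have c1 := sq_unit h1
  have c2 := sq_unit h2
  have c3 : ‖x / 2 * (b / 2)‖ ≤ 1 / 8 := by
    rw [norm_mul, h2, norm_div, n2]
    have := r.nb_le
    linarith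
  have e : x - a - 1 = ((y / 2) ^ 2 - 1) -
      (x - a) * (((x / 2) ^ 2 - 1) - x / 2 * (b / 2)) := by
    rw [div_pow, h.he]
    ring
  rw [e]
  refine nle' c1 ?_
  rw [norm_mul, h3, one_mul]
  exact nle' c2 c3

theorem dbl (r : RT m a b) {x y : ℚ_[2]} (hn : (E m).toAffine.Nonsingular x y) (hy : y ≠ 0) :
    ∃ (X Y : ℚ_[2]) (hn' : (E m).toAffine.Nonsingular X Y),
      (Affine.Point.some x y hn : (E m).toAffine.Point) + .some x y hn = .some X Y hn' ∧
      X = ((x ^ 2 - a * b) / (2 * y)) ^ 2 := by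
  obtain ⟨X, Y, hn', h1, h2⟩ := (isR r).dup two_ne_zero hn hy
  refine ⟨X, Y, hn', h1, ?_⟩
  rw [← sub_zero X, h2]
  congr 2
  ring

theorem K1.dbl_mem (r : RT m a b) (hm : ‖a‖ = 1) {x y : ℚ_[2]} (h : K1 a b x y)
    (hn : (E m).toAffine.Nonsingular x y) :
    (Affine.Point.some x y hn : (E m).toAffine.Point) + .some x y hn ∈ E0 (W9 m) 2 := by
  have hy := h.y_norm r hm
  have hy0 : y ≠ 0 := by rw [← norm_pos_iff, hy]; norm_num
  obtain ⟨X, Y, hn', h1, h2⟩ := dbl r hn hy0
  rw [h1, mem_iff, h2]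
  have h3 : ‖x ^ 2 - a * b‖ = 1 / 4 := by
    have hb := r.nb_le
    rw [nsub, norm_pow, h.hx]
    · norm_num
    · rw [norm_pow, h.hx, norm_mul, hm, one_mul]
      have : (1 / 2 : ℝ) ^ 2 = 1 / 4 := by norm_num
      linarith
  rw [norm_pow, norm_div, h3, norm_mul, n2, hy]
  norm_num

/-- the sum of two points with `v(x) = 1` lies in `E⁰` -/
theorem K1.add_mem (r : RT m a b) (hm : ‖a‖ = 1) {x y x' y' : ℚ_[2]} (h : K1 a b x y)
    (h' : K1 a b x' y')
    (hn : (E m).toAffine.Nonsingular x y) (hn' : (E m).toAffine.Nonsingular x' y') :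
    (Affine.Point.some x y hn : (E m).toAffine.Point) + .some x' y' hn' ∈ E0 (W9 m) 2 := by
  have hy := h.y_norm r hm
  have hy' := h'.y_norm r hm
  have hmm : ‖(m : ℚ_[2])‖ = 1 := by rw [← r.na]; exact hm
  have n9m : ‖(9 : ℚ_[2]) * m‖ = 1 := by
    rw [norm_mul, hmm, mul_one]
    have e4 : (9 : ℚ_[2]) = 1 + 2 * ((4 : ℤ) : ℚ_[2]) := by push_cast; norm_num
    rw [e4, nadd, norm_one]
    rw [norm_one, norm_mul, n2]
    exact (mul_le_mul_of_nonneg_left (nm_le 4) (by norm_num)).trans_lt (by norm_num)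
  by_cases hxx : x = x'
  · subst hxx
    have h1 : (y - y') * (y + y') = 0 := by
      linear_combination h.he - h'.he
    rcases mul_eq_zero.1 h1 with h2 | h2
    · have h3 : y = y' := sub_eq_zero.1 h2
      subst h3
      exact h.dbl_mem r hm hn
    · have h3 : (Affine.Point.some x y hn : (E m).toAffine.Point) + .some x y' hn' = 0 := by
        apply Affine.Point.add_of_Y_eq rfl
        rw [(isR r).negY]
        linear_combination h2
      rw [h3]
      exact AddSubgroup.zero_mem _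
  · rw [Affine.Point.add_of_X_ne hxx]
    set l : ℚ_[2] := (E m).toAffine.slope x x' y y' with hl
    have hl' : l = (y - y') / (x - x') := Affine.slope_of_X_ne hxx
    rw [mem_iff]
    have e1 : (E m).toAffine.addX x x' l = l ^ 2 - (9 * m + (x + x')) := by
      show l ^ 2 + (E m).a₁ * l - (E m).a₂ - x - x' = _
      rw [(isR r).h1, (isR r).h2]
      linear_combination r.hs
    rw [e1]
    have hd0 : x - x' ≠ 0 := sub_ne_zero.2 hxx
    have hdp : 0 < ‖x - x'‖ := norm_pos_iff.2 hd0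
    have hd : ‖x - x'‖ ≤ 1 / 8 := by
      have e : x - x' = (x - a - 1) - (x' - a - 1) := by ring
      rw [e]
      exact nle' (h.cong r hm) (h'.cong r hm)
    have hln : ‖l‖ * ‖x - x'‖ = ‖y - y'‖ := by
      rw [← norm_mul, hl', div_mul_cancel₀ _ hd0]
    -- the product
    have hprod : ‖y - y'‖ * ‖y + y'‖ ≤ ‖x - x'‖ * (1 / 8) := by
      have e : (y - y') * (y + y') = (x - x') * (4 * (((x / 2) * (x / 2) + (x / 2) * (x' / 2) +
          (x' / 2) * (x' / 2)) + 9 * m * ((x / 2) + (x' / 2)) / 2 + 4 * m ^ 2)) := by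
        linear_combination h.he - h'.he - (x ^ 2 - x' ^ 2) * r.hs + (x - x') * r.hp
      rw [← norm_mul, e, norm_mul, norm_mul, n4]
      have u1 : ‖x / 2‖ = 1 := by rw [norm_div, h.hx, n2]; norm_num
      have u2 : ‖x' / 2‖ = 1 := by rw [norm_div, h'.hx, n2]; norm_num
      have v1 := unit_sub_one u1
      have v2 := unit_sub_one u2
      have v3 := unit_sub_one n9m
      have w1 : ‖x / 2 * (x / 2) + x / 2 * (x' / 2) + x' / 2 * (x' / 2) - 1‖ ≤ 1 / 2 := by
        have e2 : x / 2 * (x / 2) + x / 2 * (x' / 2) + x' / 2 * (x' / 2) - 1 =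
            (x / 2 - 1) * (x / 2 + 1) + (x' / 2) * (x / 2 - 1) + x' / 2 * ((x' / 2 - 1) + 2) := by
          ring
        have w2 : ‖x / 2 + 1‖ ≤ 1 := nle u1.le (by rw [norm_one])
        rw [e2]
        refine nle (nle ?_ ?_) ?_
        · rw [norm_mul]
          have := norm_nonneg (x / 2 - 1)
          nlinarith
        · rw [norm_mul, u2, one_mul]; exact v1
        · rw [norm_mul, u2, one_mul]; exact nle v2 n2.le
      have w3 : ‖9 * m * ((x / 2) + (x' / 2)) / 2 - 1‖ ≤ 1 / 2 := by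
        have e3 : 9 * m * ((x / 2) + (x' / 2)) / 2 - 1 =
            9 * m * (x / 2 - 1) + (9 * m - 1) - 9 * m * ((x - x') / 4) := by ring
        rw [e3]
        refine nle' (nle ?_ v3) ?_
        · rw [norm_mul, n9m, one_mul]; exact v1
        · rw [norm_mul, n9m, one_mul, norm_div, n4]
          linarith
      have w4 : ‖(4 : ℚ_[2]) * m ^ 2‖ ≤ 1 / 2 := by
        rw [norm_mul, norm_pow, hmm, n4]
        norm_num
      have w5 : ‖((x / 2) * (x / 2) + (x / 2) * (x' / 2) +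
          (x' / 2) * (x' / 2)) + 9 * m * ((x / 2) + (x' / 2)) / 2 + 4 * (m : ℚ_[2]) ^ 2‖ ≤
          1 / 2 := by
        have e6 : ((x / 2) * (x / 2) + (x / 2) * (x' / 2) +
          (x' / 2) * (x' / 2)) + 9 * m * ((x / 2) + (x' / 2)) / 2 + 4 * (m : ℚ_[2]) ^ 2 =
          (x / 2 * (x / 2) + x / 2 * (x' / 2) + x' / 2 * (x' / 2) - 1) +
          (9 * m * ((x / 2) + (x' / 2)) / 2 - 1) + 4 * (m : ℚ_[2]) ^ 2 + 2 := by ring
        rw [e6]
        exact nle (nle (nle w1 w3) w4) n2.le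
      have := norm_nonneg (x - x')
      nlinarith
    have hl1 : ‖l‖ ≠ 1 := by
      intro hc
      rw [hc, one_mul] at hln
      rw [← hln] at hprod
      have h1 : ‖y + y'‖ ≤ 1 / 8 := by
        by_contra hc2
        have := not_le.1 hc2
        nlinarith
      have h2 : ‖y - y'‖ = 1 / 4 := by
        have e : y - y' = -(2 * y') + (y + y') := by ring
        rw [e, nadd, norm_neg, norm_mul, n2, hy']
        · norm_num
        · rw [norm_neg, norm_mul, n2, hy']
          linarith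
      rw [← hln] at h2
      linarith
    have h15 : ‖(9 * m + (x + x') : ℚ_[2])‖ = 1 := by
      rw [nadd, n9m]
      rw [n9m]
      have := nle h.hx.le h'.hx.le
      linarith
    rcases lt_or_gt_of_ne hl1 with h1 | h1
    · have h2 : ‖l ^ 2‖ < 1 := by
        rw [norm_pow]
        have := norm_nonneg l
        nlinarith
      have e5 : l ^ 2 - (9 * m + (x + x')) = -((9 * m + (x + x')) - l ^ 2) := by ring
      rw [e5, norm_neg, nsub, h15]
      rw [h15]
      exact h2
    · have h2 : 1 < ‖l ^ 2‖ := by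
        rw [norm_pow]
        nlinarith
      rw [nsub]
      · exact h2.le
      · rw [h15]
        exact h2

theorem tam_odd (hm : m % 4 = 3) : (E0 (W9 m) 2).index = 4 := by
  obtain ⟨a, b, r⟩ := exists_RT m
  have hm0 : m ≠ 0 := by rintro rfl; norm_num at hm
  have hmn : ‖(m : ℚ_[2])‖ = 1 := by
    by_contra h5
    have h6 : ‖(m : ℚ_[2])‖ < 1 := lt_of_le_of_ne (nm_le m) h5
    have h7 := (Padic.norm_intCast_lt_one_iff (p := 2) (k := m)).1 h6
    push_cast at h7
    omega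
  have hna : ‖a‖ = 1 := by rw [r.na, hmn]
  have hnb : ‖b‖ = 1 / 16 := by rw [r.nb, hmn]
  obtain ⟨a0, b0, ab⟩ := r.ne hm0
  have hm1 : ‖(m : ℚ_[2]) - 1‖ = 1 / 2 := by
    obtain ⟨k, rfl⟩ : ∃ k : ℤ, m = 4 * k + 3 := ⟨m / 4, by omega⟩
    have e : (((4 * k + 3 : ℤ)) : ℚ_[2]) - 1 = 2 + 4 * k := by push_cast; ring
    rw [e, nadd, n2]
    rw [n2, norm_mul, n4]
    have := nm_le k
    linarith
  -- `-a = 1` modulo `4` is false
  have ha1 : ‖-a - 1‖ = 1 / 2 := by
    have e : -a - 1 = ((m : ℚ_[2]) - 1) + (8 * m + b) := by linear_combination -r.hs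
    have n8 : ‖(8 : ℚ_[2])‖ = 1 / 8 := by
      have e : (8 : ℚ_[2]) = 2 ^ 3 := by norm_num
      rw [e, norm_pow, n2]; norm_num
    rw [e, nadd, hm1]
    rw [hm1]
    refine (nle (c := 1 / 8) ?_ ?_).trans_lt (by norm_num)
    · rw [norm_mul, hmn, n8, mul_one]
    · rw [hnb]; norm_num
  have g1 := hns r (x := 0) (y := 0) hm0 (by ring)
  have s1 : (Affine.Point.some 0 0 g1 : (E m).toAffine.Point) + .some 0 0 g1 = 0 :=
    ((isR r).add_self two_ne_zero g1).2 rfl
  -- the point `Q`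
  have hQ : ∃ xQ yQ : ℚ_[2], K1 a b xQ yQ := by
    rcases (by omega : m % 8 = 3 ∨ m % 8 = 7) with h | h
    · obtain ⟨s, hs⟩ := Pool.Agent.H468.X15.sq_of_mod8 (u := -2 + 9 * m - 8 * m ^ 2) (by
        obtain ⟨k, rfl⟩ : ∃ k : ℤ, m = 8 * k + 3 := ⟨m / 8, by omega⟩
        have e : -2 + 9 * (8 * k + 3) - 8 * (8 * k + 3) ^ 2 =
            8 * (9 * k + 3 - (8 * k + 3) ^ 2) + 1 := by
          ring
        rw [e]
        omega)
      refine ⟨-2, 2 * s, ⟨by rw [norm_neg, n2], ?_⟩⟩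
      push_cast at hs
      linear_combination -4 * hs + 4 * r.hs + 2 * r.hp
    · obtain ⟨s, hs⟩ := Pool.Agent.H468.X15.sq_of_mod8 (u := 2 + 9 * m + 8 * m ^ 2) (by
        obtain ⟨k, rfl⟩ : ∃ k : ℤ, m = 8 * k + 7 := ⟨m / 8, by omega⟩
        have e : 2 + 9 * (8 * k + 7) + 8 * (8 * k + 7) ^ 2 =
            8 * (9 * k + 8 + (8 * k + 7) ^ 2) + 1 := by
          ring
        rw [e]
        omega)
      refine ⟨2, 2 * s, ⟨n2, ?_⟩⟩
      push_cast at hs
      linear_combination -4 * hs + 4 * r.hs - 2 * r.hp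
  obtain ⟨xQ, yQ, hQ⟩ := hQ
  have gQ := hns r hm0 hQ.he
  have hyQ := hQ.y_norm r hna
  have hyQ0 : yQ ≠ 0 := by rw [← norm_pos_iff, hyQ]; norm_num
  have nab : ‖a * b‖ = 1 / 16 := by
    rw [norm_mul, hna, hnb]
    norm_num
  -- points with `v(x) = 1`
  have kQ : ∀ (x y : ℚ_[2]) (hn : (E m).toAffine.Nonsingular x y), ‖x‖ = 1 / 2 →
      (Affine.Point.some x y hn : (E m).toAffine.Point) + .some xQ yQ gQ ∈ E0 (W9 m) 2 := by
    intro x y hn hx
    exact K1.add_mem r hna ⟨hx, eqn r hn⟩ hQ hn gQ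
  refine index_four (E0 (W9 m) 2) (.some 0 0 g1 : (E m).toAffine.Point)
    (.some xQ yQ gQ : (E m).toAffine.Point) ?_ ?_ ?_ ?_ ?_ ?_
  · rw [s1]; exact AddSubgroup.zero_mem _
  · exact hQ.dbl_mem r hna gQ
  · rw [mem_iff, norm_zero]; norm_num
  · rw [mem_iff, hQ.hx]; norm_num
  · rw [add_comm]
    obtain ⟨X1, Y1, k1, p1, q1, r1⟩ := tr1 r gQ hyQ0 g1
    rw [p1, mem_iff]
    have r1' : ‖X1‖ * ‖xQ‖ = 1 / 16 := by rw [← norm_mul, r1, nab]
    rw [hQ.hx] at r1'
    intro h
    linarith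
  · intro P
    rcases P with _ | ⟨x, y, hn⟩
    · left
      exact AddSubgroup.zero_mem _
    rcases le_or_gt 1 ‖x‖ with hx | hx
    · left
      exact (mem_iff hn).2 hx
    right
    have he := eqn r hn
    have hxm : ‖x - a‖ = 1 := nxa hna hx
    by_cases hy : y = 0
    · rw [hy] at he
      have h0 : x * (x - a) * (x - b) = 0 := by rw [← he]; ring
      subst hy
      left
      rcases mul_eq_zero.1 h0 with h1 | h1
      · rcases mul_eq_zero.1 h1 with h2 | h2
        · subst h2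
          rw [s1]; exact AddSubgroup.zero_mem _
        · exfalso
          rw [h2, norm_zero] at hxm
          norm_num at hxm
      · -- `x = b`: the sum with `T₁` is `T₂`
        have h3 : x = b := by linear_combination h1
        subst h3
        rw [Affine.Point.add_of_X_ne b0, mem_iff]
        set l : ℚ_[2] := (E m).toAffine.slope x 0 0 0 with hl
        have hl' : l = (0 - 0) / (x - 0) := Affine.slope_of_X_ne b0
        have hl0 : l = 0 := by rw [hl']; simp
        have e1 : (E m).toAffine.addX x 0 l = a := by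
          show l ^ 2 + (E m).a₁ * l - (E m).a₂ - x - 0 = _
          rw [(isR r).h1, (isR r).h2, hl0]
          ring
        rw [e1, hna]
    · obtain ⟨X1, Y1, k1, p1, q1, r1⟩ := tr1 r hn hy g1
      have r1' : ‖X1‖ * ‖x‖ = 1 / 16 := by rw [← norm_mul, r1, nab]
      have x1 : 0 < ‖x‖ := norm_pos_iff.2 q1
      have hbig : ‖x‖ ≤ 1 / 16 → (Affine.Point.some x y hn : (E m).toAffine.Point) +
          .some 0 0 g1 ∈ E0 (W9 m) 2 := by
        intro h
        rw [p1, mem_iff]
        by_contra hc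
        have hc' := not_le.1 hc
        nlinarith
      rcases cases5 hx with h | h | h | h | h | h
      · -- `v(x) = 1`
        right; left
        exact kQ x y hn h
      · -- `v(x) = 2` is impossible
        exfalso
        have h2 : ‖x - b‖ = 1 / 4 := by rw [nsub, h]; rw [h, hnb]; norm_num
        have hy2 : ‖y‖ ^ 2 = (1 / 4) ^ 2 := by
          rw [← norm_pow, he, norm_mul, norm_mul, h, hxm, h2]
          norm_num
        have hy1 : ‖y‖ = 1 / 4 := (pow_left_inj₀ (norm_nonneg _) (by norm_num) two_ne_zero).1 hy2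
        have u1 : ‖y / 4‖ = 1 := by rw [norm_div, hy1, n4]; norm_num
        have u2 : ‖x / 4‖ = 1 := by rw [norm_div, h, n4]; norm_num
        have c1 := sq_unit u1
        have c2 := sq_unit u2
        have e : -a - 1 = ((y / 4) ^ 2 - 1) - (x - a) * (((x / 4) ^ 2 - 1) -
            (x / 4) * (b / 4)) - x := by
          rw [div_pow, he]
          ring
        have h5 : ‖-a - 1‖ ≤ 1 / 4 := by
          rw [e]
          refine nle' (nle' (by linarith) ?_) h.le
          rw [norm_mul, hxm, one_mul]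
          refine nle' (by linarith) ?_
          rw [norm_mul, u2, norm_div, n4, hnb]
          norm_num
        rw [ha1] at h5
        norm_num at h5
      · -- `v(x) = 3`: the translate has `v(x) = 1`
        right; right
        rw [← add_assoc, p1]
        apply kQ
        rw [h] at r1'
        linarith
      · left; exact hbig h.le
      · left; exact hbig (by rw [h]; norm_num)
      · left; exact hbig (by linarith)

end

theorem t_ITD1 : S_ITD1 := by
  intro m _ hm
  rw [WJ_eq (by omega)]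
  rcases hm with h | h
  · exact tam_even h
  · exact tam_odd h

end Pool.Agent.H658.I17.ITD1
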